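import Pool.Agent.E8helper8.EC.Stm

/-!
# Project EC: basic facts on the characteristic maps of the realization (REAL)
-/

set_option autoImplicit false

open CategoryTheory Simplicial Opposite unitInterval

namespace Pool.Agent.E8helper99.EC

open Pool.Agent.E8helper8.EC

/-- naturality -/
lemma ch_nat (X : SSet.{0}) (n m : ℕ) (α : ⦋m⦌ ⟶ ⦋n⦌) (s : X.obj (op ⦋n⦌)) (x : Dl m) :
    ch X m (X.map α.op s) x = ch X n s (push α x) := by
  have h := ConcreteCategory.congr_hom ((sSetTopAdj.unit.app X).naturality α.op) s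
  have h2 : (sSetTopAdj.unit.app X).app (op ⦋m⦌) (X.map α.op s) =
    (TopCat.toSSet.obj (SSet.toTop.obj X)).map α.op ((sSetTopAdj.unit.app X).app (op ⦋n⦌) s) := h
  unfold ch
  rw [h2]
  rfl

/-- functoriality -/
lemma ch_map (X Y : SSet.{0}) (f : X ⟶ Y) (n : ℕ) (s : X.obj (op ⦋n⦌)) (x : Dl n) :
    rmap f (ch X n s x) = ch Y n (f.app (op ⦋n⦌) s) x := by
  have h := ConcreteCategory.congr_hom (NatTrans.congr_app (sSetTopAdj.unit.naturality f) (op ⦋n⦌)) s
  have h2 : (sSetTopAdj.unit.app Y).app (op ⦋n⦌) (f.app (op ⦋n⦌) s) =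
    (TopCat.toSSet.map (SSet.toTop.map f)).app (op ⦋n⦌) ((sSetTopAdj.unit.app X).app (op ⦋n⦌) s) := h
  unfold ch
  rw [h2]
  rfl

/-- uniqueness -/
lemma ch_uniq (X : SSet.{0}) (Y : Type) [TopologicalSpace Y] (H H' : C(Rl X, Y))
    (h : ∀ (n : ℕ) (s : X.obj (op ⦋n⦌)) (x : Dl n), H (ch X n s x) = H' (ch X n s x)) :
    H = H' := by
  have h1 : (TopCat.ofHom H : SSet.toTop.obj X ⟶ TopCat.of Y) = TopCat.ofHom H' := by
    apply (sSetTopAdj.homEquiv X (TopCat.of Y)).injective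
    rw [Adjunction.homEquiv_unit, Adjunction.homEquiv_unit]
    ext n s
    apply (TopCat.toSSetObjEquiv (TopCat.of Y) n).injective
    apply ContinuousMap.ext
    intro x
    exact h n.unop.len s x
  exact congrArg TopCat.Hom.hom h1

/-- the universal property -/
lemma ch_desc (X : SSet.{0}) (Y : Type) [TopologicalSpace Y]
    (h : ∀ n : ℕ, X.obj (op ⦋n⦌) → C(Dl n, Y))
    (hn : ∀ (n m : ℕ) (α : ⦋m⦌ ⟶ ⦋n⦌) (s : X.obj (op ⦋n⦌)) (x : Dl m),
      h m (X.map α.op s) x = h n s (push α x)) :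
    ∃ H : C(Rl X, Y), ∀ (n : ℕ) (s : X.obj (op ⦋n⦌)) (x : Dl n), H (ch X n s x) = h n s x := by
  let F : X ⟶ TopCat.toSSet.obj (TopCat.of Y) :=
    { app := fun n => ↾fun s => (TopCat.toSSetObjEquiv (TopCat.of Y) n).symm (h n.unop.len s)
      naturality := by
        intro n m f
        ext s
        apply (TopCat.toSSetObjEquiv (TopCat.of Y) m).injective
        apply ContinuousMap.ext
        intro x
        exact hn n.unop.len m.unop.len f.unop s x }
  refine ⟨((sSetTopAdj.homEquiv X (TopCat.of Y)).symm F).hom, fun n s x => ?_⟩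
  have h1 := (sSetTopAdj.homEquiv X (TopCat.of Y)).apply_symm_apply F
  rw [Adjunction.homEquiv_unit] at h1
  have h2 := ConcreteCategory.congr_hom (NatTrans.congr_app h1 (op ⦋n⦌)) s
  have h3 := congrArg (fun z => TopCat.toSSetObjEquiv (TopCat.of Y) (op ⦋n⦌) z x) h2
  exact h3

/-- a space with two points and the indiscrete topology -/
def Ind : Type := Prop

instance : TopologicalSpace Ind := ⊤

/-- surjectivity -/
lemma ch_surj (X : SSet.{0}) (p : Rl X) :
    ∃ (n : ℕ) (s : X.obj (op ⦋n⦌)) (x : Dl n), ch X n s x = p := by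
  let f : Rl X → Ind := fun p => (∃ (n : ℕ) (s : X.obj (op ⦋n⦌)) (x : Dl n), ch X n s x = p : Prop)
  let H : C(Rl X, Ind) := ⟨f, continuous_top⟩
  let H' : C(Rl X, Ind) := ⟨fun _ => (True : Prop), continuous_top⟩
  have e : H = H' := by
    apply ch_uniq
    intro n s x
    change (∃ (n' : ℕ) (s' : X.obj (op ⦋n'⦌)) (x' : Dl n'), ch X n' s' x' = ch X n s x : Prop) = True
    exact eq_true ⟨n, s, x, rfl⟩
  have e2 : f p = (True : Prop) := DFunLike.congr_fun e p
  exact of_eq_true e2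

theorem t_REAL : S_REAL := ⟨ch_nat, ch_desc, ch_surj, ch_map⟩

end Pool.Agent.E8helper99.EC
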